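import Pool.Agent.Helper40.DZ.Stmts

/-!
The unitary operator `f ↦ φ* (f ∘ S)` on the square integrable functions for measurable cocycles
(module WOP3).
-/

open Filter MeasureTheory

namespace Pool.Agent.Helper40.DZ

open Pool.Agent.Helper16.AZ (T E Op mm unitary_norm unitary_inner unitary_star inner_star)
open Pool.Agent.Helper16.BZ (co Wk EE ff EQ Act)

section wop3

variable {X : Type} [MetricSpace X] [CompactSpace X] [MeasurableSpace X] [BorelSpace X]
  {m : Measure X} [IsProbabilityMeasure m] {d : ℕ}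

theorem wop3_memLp (ψ : X → Op d) (hψ : UM m ψ) (f : Lp (E d) 2 m) :
    MemLp (fun x => ψ x ((f : X → E d) x)) 2 m := by
  have h1 : AEStronglyMeasurable (fun x => ψ x ((f : X → E d) x)) m :=
    (ContinuousLinearMap.id ℂ (Op d)).aestronglyMeasurable_comp₂
      hψ.1 (Lp.aestronglyMeasurable f)
  refine (Lp.memLp f).congr_norm h1 ?_
  exact Eventually.of_forall fun x => (unitary_norm (hψ.2 x) _).symm

/-- multiplication by `ψ` -/
noncomputable def wop3Mul (ψ : X → Op d) (hψ : UM m ψ) : Lp (E d) 2 m →ₗᵢ[ℂ] Lp (E d) 2 m where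
  toFun f := (wop3_memLp ψ hψ f).toLp _
  map_add' f g := by
    apply Lp.ext
    filter_upwards [(wop3_memLp ψ hψ (f + g)).coeFn_toLp, (wop3_memLp ψ hψ f).coeFn_toLp,
      (wop3_memLp ψ hψ g).coeFn_toLp, Lp.coeFn_add f g,
      Lp.coeFn_add ((wop3_memLp ψ hψ f).toLp _) ((wop3_memLp ψ hψ g).toLp _)] with
      x h1 h2 h3 h4 h5
    rw [h1, h5, Pi.add_apply, h2, h3, h4, Pi.add_apply, map_add]
  map_smul' c f := by
    apply Lp.ext
    filter_upwards [(wop3_memLp ψ hψ (c • f)).coeFn_toLp, (wop3_memLp ψ hψ f).coeFn_toLp,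
      Lp.coeFn_smul c f, Lp.coeFn_smul c ((wop3_memLp ψ hψ f).toLp _)] with x h1 h2 h3 h4
    rw [h1, RingHom.id_apply, h4, Pi.smul_apply, h2, h3, Pi.smul_apply, map_smul]
  norm_map' f := by
    change ‖(wop3_memLp ψ hψ f).toLp _‖ = ‖f‖
    rw [Lp.norm_def, Lp.norm_def]
    congr 1
    refine eLpNorm_congr_norm_ae ?_
    filter_upwards [(wop3_memLp ψ hψ f).coeFn_toLp] with x h1
    rw [h1, unitary_norm (hψ.2 x)]

theorem wop3Mul_ae (ψ : X → Op d) (hψ : UM m ψ) (f : Lp (E d) 2 m) :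
    ∀ᵐ x ∂m, (wop3Mul ψ hψ f : X → E d) x = ψ x ((f : X → E d) x) :=
  (wop3_memLp ψ hψ f).coeFn_toLp

omit [MetricSpace X] [CompactSpace X] [BorelSpace X] [IsProbabilityMeasure m] in
theorem wop3Star_uc {φ : X → Op d} (h : UM m φ) : UM m fun x => star (φ x) :=
  ⟨(ContinuousLinearMap.adjoint : Op d ≃ₗᵢ⋆[ℂ] Op d).continuous.comp_aestronglyMeasurable h.1,
    fun x => unitary_star (h.2 x)⟩

/-- composition with `S` -/
noncomputable def wop3Tr {S : X → X} (hS : MeasurePreserving S m m) :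
    Lp (E d) 2 m →ₗᵢ[ℂ] Lp (E d) 2 m :=
  Lp.compMeasurePreservingₗᵢ ℂ S hS

theorem wop3Tr_ae {S : X → X} (hS : MeasurePreserving S m m) (f : Lp (E d) 2 m) :
    ∀ᵐ x ∂m, (wop3Tr hS f : X → E d) x = (f : X → E d) (S x) :=
  Lp.coeFn_compMeasurePreserving f hS

theorem wop3Tr_inv {S : X ≃ₜ X} (hS : MeasurePreserving S m m)
    (hS' : MeasurePreserving S.symm m m) (f : Lp (E d) 2 m) :
    wop3Tr hS (wop3Tr hS' f) = f := by
  apply Lp.ext
  filter_upwards [wop3Tr_ae hS (wop3Tr hS' f),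
    hS.quasiMeasurePreserving.ae (wop3Tr_ae hS' f)] with x h1 h2
  rw [h1, h2, Homeomorph.symm_apply_apply]

theorem wop3Mul_inv {φ : X → Op d} (h : UM m φ) (f : Lp (E d) 2 m) :
    wop3Mul (fun x => star (φ x)) (wop3Star_uc h) (wop3Mul φ h f) = f := by
  apply Lp.ext
  filter_upwards [wop3Mul_ae (fun x => star (φ x)) (wop3Star_uc h) (wop3Mul φ h f),
    wop3Mul_ae φ h f] with x h1 h2
  rw [h1, h2]
  have h3 : star (φ x) (φ x ((f : X → E d) x)) = (star (φ x) * φ x) ((f : X → E d) x) := rfl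
  rw [h3, (Unitary.mem_iff.1 (h.2 x)).1]
  rfl

end wop3

theorem st_WOP3 : ST_WOP3 := by
  intro X _ _ _ _ S m _ d φ hS h
  have hS' : MeasurePreserving S.symm m m :=
    MeasurePreserving.symm S.toMeasurableEquiv hS
  have hs : Function.Surjective
      ((wop3Mul (fun x => star (φ x)) (wop3Star_uc h)).comp (wop3Tr hS) :
        Lp (E d) 2 m →ₗᵢ[ℂ] Lp (E d) 2 m) := by
    intro f
    refine ⟨wop3Tr hS' (wop3Mul φ h f), ?_⟩
    change wop3Mul (fun x => star (φ x)) (wop3Star_uc h)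
      (wop3Tr hS (wop3Tr hS' (wop3Mul φ h f))) = f
    rw [wop3Tr_inv, wop3Mul_inv]
  let e : Lp (E d) 2 m ≃ₗᵢ[ℂ] Lp (E d) 2 m := LinearIsometryEquiv.ofSurjective _ hs
  refine ⟨(Unitary.linearIsometryEquiv.symm e :
      unitary (Lp (E d) 2 m →L[ℂ] Lp (E d) 2 m)),
    (Unitary.linearIsometryEquiv.symm e).2, ?_⟩
  intro f
  have h0 : ((Unitary.linearIsometryEquiv.symm e :
      unitary (Lp (E d) 2 m →L[ℂ] Lp (E d) 2 m)) :
      Lp (E d) 2 m →L[ℂ] Lp (E d) 2 m) f =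
      wop3Mul (fun x => star (φ x)) (wop3Star_uc h) (wop3Tr hS f) := rfl
  rw [h0]
  filter_upwards [wop3Mul_ae (fun x => star (φ x)) (wop3Star_uc h) (wop3Tr hS f),
    wop3Tr_ae hS f] with x h1 h2
  rw [h1, h2]

end Pool.Agent.Helper40.DZ
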